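import Pool.Agent.VMX.StmtsB

/-!
# Squad VMX, row FLB (helper39)
-/

set_option autoImplicit false

open Matrix Filter Topology

namespace Pool.Agent.VMX.H39

open Pool.Agent.PFS Pool.Agent.PFJ Pool.Agent.NBT Pool.Agent.VMX

theorem ext_fun {n : ℕ} (S : Set (V n)) (x0 : V n) (hx0 : x0 ∈ S) (h0 : x0 ≠ 0) :
    ∃ b ⊆ S, x0 ∈ b ∧ Submodule.span ℝ b = Submodule.span ℝ S ∧
      (∀ (f : V n → (V n →ₗ[ℝ] V n)), ∃ G : V n →ₗ[ℝ] V n →ₗ[ℝ] V n, ∀ y ∈ b, G y = f y) ∧
      ∀ (f : V n → ℝ), ∃ G : V n →ₗ[ℝ] ℝ, ∀ y ∈ b, G y = f y := by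
  have h1 : LinearIndepOn ℝ id ({x0} : Set (V n)) := by
    rw [linearIndepOn_singleton_iff]
    exact h0
  have hst : ({x0} : Set (V n)) ⊆ S := Set.singleton_subset_iff.2 hx0
  have h2 : LinearIndepOn ℝ id (h1.extend hst) := h1.linearIndepOn_extend hst
  refine ⟨h1.extend hst, h1.extend_subset hst, h1.subset_extend hst rfl,
    h1.span_extend_eq_span hst, ?_, ?_⟩
  · intro f
    refine ⟨(Module.Basis.extend h2).constr ℝ (fun y => f y), fun y hy => ?_⟩
    have h3 := (Module.Basis.extend h2).constr_basis ℝ (fun y => f y)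
      ⟨y, (h2.subset_extend (Set.subset_univ _)) hy⟩
    rw [Module.Basis.extend_apply_self] at h3
    exact h3
  · intro f
    refine ⟨(Module.Basis.extend h2).constr ℝ (fun y => f y), fun y hy => ?_⟩
    have h3 := (Module.Basis.extend h2).constr_basis ℝ (fun y => f y)
      ⟨y, (h2.subset_extend (Set.subset_univ _)) hy⟩
    rw [Module.Basis.extend_apply_self] at h3
    exact h3

theorem flb (zpf : ZpfStmt) (flt : FltStmt) : FlbStmt := by
  intro n C Γ Γ₀ K p J c F hSL z hz j hjp hjJ m hm θ1 θ2 g1 g2 s1 s2 T1 L1 T2 L2 hg1 hg2 hZ1 hZ2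
    hIB
  have hCC : CC C Γ := hSL.cc
  have hP : PCone C := hCC.toPCone
  have hpm : p ≠ m := fun h => hSL.pJ (h ▸ hm)
  have hjm : j ≠ m := fun h => hjJ (h ▸ hm)
  have hpes := hSL.pes z hz
  have hcl : ∀ i, z i ∈ closure C := fun i => hpes.1.cl i
  obtain ⟨τ, hτp, hτm, hτT, hτpos, hτψ⟩ := flt n C Γ Γ₀ K p J c F hSL z hz j hjp hjJ m hm θ1 θ2
    g1 g2 s1 s2 T1 L1 T2 L2 hg1 hg2 hZ1 hZ2 hIB
  obtain ⟨hT2cl, hT2u, _, hT24, _⟩ := zpf n C Γ hCC (fS z {p, m}ᶜ) (fS z {p, m}ᶜᶜ)
    (fS_cl hP hcl _) (fS_cl hP hcl _) θ2 g2 s2 T2 L2 hZ2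
  -- T2 (z j) = 0
  have hT2j : T2 (z j) = 0 := by
    have hjI : j ∈ ({p, m}ᶜ : Finset (Fin K)) := by
      rw [Finset.mem_compl, Finset.mem_insert, Finset.mem_singleton, not_or]
      exact ⟨hjp, hjm⟩
    have h1 : fS z {p, m}ᶜ - z j ∈ closure C := by
      have h2 : fS z {p, m}ᶜ - z j = fS z (({p, m}ᶜ : Finset (Fin K)).erase j) := by
        unfold fS
        rw [← Finset.add_sum_erase _ _ hjI, add_sub_cancel_left]
      rw [h2]
      exact fS_cl hP hcl _
    have h3 := hT2cl _ h1
    rw [map_sub, hT2u, zero_sub] at h3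
    exact hP.salient _ (hT2cl _ (hcl j)) h3
  -- T2 (z p) ≠ 0
  have hT2p : T2 (z p) ≠ 0 := by
    intro h0
    obtain ⟨κ, hκ, h1⟩ := hT24 (-z p) (by rw [map_neg, h0, neg_zero]; exact hP.zero_cl) (1 / 2)
      (by norm_num)
    have h2 : -z p + (1 / 2 : ℝ) • fS z {p, m}ᶜᶜ + κ • fS z {p, m}ᶜ =
        ∑ i, (if i = p then (-1 / 2 : ℝ) else if i = m then 1 / 2 else κ) • z i := by
      have h3 : ∑ i, (if i = p then (-1 / 2 : ℝ) else if i = m then 1 / 2 else κ) • z i =
          ∑ i ∈ ({p, m} : Finset (Fin K)),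
            (if i = p then (-1 / 2 : ℝ) else if i = m then 1 / 2 else κ) • z i +
          ∑ i ∈ ({p, m} : Finset (Fin K))ᶜ,
            (if i = p then (-1 / 2 : ℝ) else if i = m then 1 / 2 else κ) • z i :=
        (Finset.sum_add_sum_compl _ _).symm
      have h4 : ∑ i ∈ ({p, m} : Finset (Fin K))ᶜ,
            (if i = p then (-1 / 2 : ℝ) else if i = m then 1 / 2 else κ) • z i =
          κ • fS z {p, m}ᶜ := by
        unfold fS
        rw [Finset.smul_sum]
        refine Finset.sum_congr rfl (fun i hi => ?_)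
        rw [Finset.mem_compl, Finset.mem_insert, Finset.mem_singleton, not_or] at hi
        rw [if_neg hi.1, if_neg hi.2]
      rw [h3, h4, Finset.sum_pair hpm, if_pos rfl, if_neg hpm.symm, if_pos rfl, compl_compl,
        fS_pair z hpm]
      module
    rw [h2] at h1
    have h5 := nng n C hP (Fin K) z hpes.1 _ h1 p
    rw [if_pos rfl] at h5
    norm_num at h5
  have hz0 : z j ≠ 0 := by
    intro h0
    exact hSL.three.not_gt (by
      exfalso
      have h1 : ∑ i, (if i = j then (-1 : ℝ) else 0) • z i ∈ closure C := by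
        have h2 : ∑ i, (if i = j then (-1 : ℝ) else 0) • z i = 0 := by
          refine Finset.sum_eq_zero (fun i _ => ?_)
          by_cases hi : i = j
          · rw [hi, h0, smul_zero]
          · rw [if_neg hi, zero_smul]
        rw [h2]
        exact hP.zero_cl
      have h5 := nng n C hP (Fin K) z hpes.1 _ h1 j
      rw [if_pos rfl] at h5
      norm_num at h5)
  have hupj : ∀ v : V n, Function.update z p v j = z j := fun v => Function.update_of_ne hjp v z
  -- z p is a move of itself in the direction m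
  have hpE : z p ∈ Es C F p m z := by
    refine Submodule.subset_span (Or.inr ⟨?_, 1, one_pos, ?_⟩)
    · rw [Function.update_eq_self]
      exact hz
    · rw [one_smul, add_sub_cancel_left]
      exact hcl m
  -- the data on the generators
  have hgen : ∀ y ∈ ({z j} ∪ {h | Tm C F p j z h} : Set (V n)),
      ∃ (φ : V n →ₗ[ℝ] V n) (r : ℝ), (y = z j → ∀ u, φ u = τ u • z j) ∧ φ (z p) = y ∧
        φ (z m) = r • z m ∧ T2 y = r • T2 (z p) ∧
        (∀ u ∈ Es C F p m z, T1 (φ u) = τ u • T1 y ∧ T2 (φ u) = r • T2 u) ∧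
        ∀ v, Tm C F p m z v → φ v ∈ Es C F p j (Function.update z p v) := by
    intro y hy
    by_cases hyj : y = z j
    · subst hyj
      refine ⟨τ.smulRight (z j), 0, fun _ u => rfl, ?_, ?_, ?_, ?_, ?_⟩
      · rw [LinearMap.smulRight_apply, hτp, one_smul]
      · rw [LinearMap.smulRight_apply, hτm, zero_smul, zero_smul]
      · rw [hT2j, zero_smul]
      · intro u hu
        rw [LinearMap.smulRight_apply, map_smul, map_smul, hT2j, smul_zero, zero_smul]
        exact ⟨rfl, rfl⟩
      · intro v hv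
        rw [LinearMap.smulRight_apply]
        apply Submodule.smul_mem
        refine Submodule.subset_span (Or.inl ?_)
        rw [hupj v]
        exact Set.mem_singleton _
    · have hyT : Tm C F p j z y := by
        rcases hy with hy | hy
        · exact absurd hy hyj
        · exact hy
      obtain ⟨a, ψ, ha, h1, h2, h3, h4, h5⟩ := hτψ y hyT
      refine ⟨a⁻¹ • ψ, a⁻¹, fun h => absurd h hyj, ?_, ?_, ?_, ?_, ?_⟩
      · rw [LinearMap.smul_apply, h1, smul_smul, inv_mul_cancel₀ ha.ne', one_smul]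
      · rw [LinearMap.smul_apply, h2]
      · have h6 := h3 (z p) hpE
        rw [h1, map_smul] at h6
        rw [← h6, smul_smul, inv_mul_cancel₀ ha.ne', one_smul]
      · intro u hu
        rw [LinearMap.smul_apply, map_smul, map_smul, h3 u hu, h4 u hu, map_smul]
        refine ⟨?_, rfl⟩
        rw [smul_comm (τ u) a, smul_smul, inv_mul_cancel₀ ha.ne', one_smul]
      · intro v hv
        rw [LinearMap.smul_apply]
        apply Submodule.smul_mem
        exact Submodule.subset_span (Or.inr (h5 v hv))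
  choose! f r hf using hgen
  obtain ⟨b, hbS, hjb, hspan, hB, hρ⟩ := ext_fun ({z j} ∪ {h | Tm C F p j z h}) (z j)
    (Or.inl rfl) hz0
  obtain ⟨B, hB⟩ := hB f
  obtain ⟨ρ, hρ⟩ := hρ r
  have hall : ∀ y ∈ Es C F p j z, B y (z p) = y ∧ B y (z m) = ρ y • z m ∧
      T2 y = ρ y • T2 (z p) ∧
      (∀ u ∈ Es C F p m z, T1 (B y u) = τ u • T1 y ∧ T2 (B y u) = ρ y • T2 u) ∧
      ∀ v, Tm C F p m z v → B y v ∈ Es C F p j (Function.update z p v) := by
    intro y hy
    unfold Es at hy
    rw [← hspan] at hy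
    induction hy using Submodule.span_induction with
    | mem y hy =>
      rw [hB y hy, hρ y hy]
      exact (hf y (hbS hy)).2
    | zero =>
      simp only [map_zero, LinearMap.zero_apply, zero_smul, smul_zero]
      exact ⟨trivial, trivial, trivial, fun u _ => ⟨trivial, trivial⟩,
        fun v _ => Submodule.zero_mem _⟩
    | add x y _ _ hx hy =>
      obtain ⟨a1, a2, a3, a4, a5⟩ := hx
      obtain ⟨b1, b2, b3, b4, b5⟩ := hy
      refine ⟨?_, ?_, ?_, ?_, ?_⟩
      · rw [map_add, LinearMap.add_apply, a1, b1]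
      · rw [map_add, LinearMap.add_apply, a2, b2, map_add, add_smul]
      · rw [map_add, a3, b3, map_add, add_smul]
      · intro u hu
        refine ⟨?_, ?_⟩
        · rw [map_add, LinearMap.add_apply, map_add, (a4 u hu).1, (b4 u hu).1, map_add, smul_add]
        · rw [map_add, LinearMap.add_apply, map_add, (a4 u hu).2, (b4 u hu).2, map_add, add_smul]
      · intro v hv
        rw [map_add, LinearMap.add_apply]
        exact Submodule.add_mem _ (a5 v hv) (b5 v hv)
    | smul t x _ hx =>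
      obtain ⟨a1, a2, a3, a4, a5⟩ := hx
      refine ⟨?_, ?_, ?_, ?_, ?_⟩
      · rw [map_smul, LinearMap.smul_apply, a1]
      · rw [map_smul, LinearMap.smul_apply, a2, map_smul, smul_smul, smul_eq_mul]
      · rw [map_smul, a3, map_smul, smul_smul, smul_eq_mul]
      · intro u hu
        refine ⟨?_, ?_⟩
        · rw [map_smul, LinearMap.smul_apply, map_smul, (a4 u hu).1, map_smul]
          exact smul_comm _ _ _
        · rw [map_smul, LinearMap.smul_apply, map_smul, (a4 u hu).2, map_smul, smul_smul,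
            smul_eq_mul]
      · intro v hv
        rw [map_smul, LinearMap.smul_apply]
        exact Submodule.smul_mem _ _ (a5 v hv)
  have hpE' : z p ∈ Es C F p j z := by
    refine Submodule.subset_span (Or.inr ⟨?_, 1, one_pos, ?_⟩)
    · rw [Function.update_eq_self]
      exact hz
    · rw [one_smul, add_sub_cancel_left]
      exact hcl j
  have hjE : z j ∈ Es C F p j z := Submodule.subset_span (Or.inl rfl)
  refine ⟨B, τ, ρ, hτp, hτm, ?_, ?_, hτT, hτpos, ?_, ?_, ?_, ?_⟩
  · have h1 := (hall (z p) hpE').2.2.1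
    have h2 : (ρ (z p) - 1) • T2 (z p) = 0 := by
      rw [sub_smul, one_smul, ← h1, sub_self]
    rcases smul_eq_zero.1 h2 with h3 | h3
    · linarith
    · exact absurd h3 hT2p
  · have h1 := (hall (z j) hjE).2.2.1
    rw [hT2j] at h1
    rcases smul_eq_zero.1 h1.symm with h3 | h3
    · exact h3
    · exact absurd h3 hT2p
  · intro y hy
    obtain ⟨a1, a2, a3, _⟩ := hall y hy
    exact ⟨a1, a2, a3⟩
  · intro y hy u hu
    exact (hall y hy).2.2.2.1 u hu
  · intro y hy v hv
    exact (hall y hy).2.2.2.2 v hv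
  · intro u _
    rw [hB (z j) hjb]
    exact (hf (z j) (Or.inl rfl)).1 rfl u

end Pool.Agent.VMX.H39
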