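import Pool.Agent.VMX.StmtsA

/-!
# Squad VMX, row TES (helper39)
-/

set_option autoImplicit false

open Matrix Filter Topology

namespace Pool.Agent.VMX.H39

open Pool.Agent.PFS Pool.Agent.PFJ Pool.Agent.NBT Pool.Agent.VMX

theorem tes (zpf : ZpfStmt) (zpt : ZptStmt) (ces : CesStmt) : TesStmt := by
  intro n C Γ Γ₀ K p J c F hSL z hz m hm θ g s T L hg hZp
  have hCC : CC C Γ := hSL.cc
  have hP : PCone C := hCC.toPCone
  have hK := hSL.three
  have hpm : p ≠ m := fun h => hSL.pJ (h ▸ hm)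
  set I : Finset (Fin K) := {p, m}ᶜ with hI
  have hIc : Iᶜ = {p, m} := compl_compl _
  have hIne : I.Nonempty := by
    rw [hI, ← Finset.card_pos, Finset.card_compl, Fintype.card_fin, Finset.card_pair hpm]
    omega
  have hIcne : Iᶜ.Nonempty := by
    rw [hIc]
    exact ⟨p, Finset.mem_insert_self _ _⟩
  have hpes := hSL.pes z hz
  obtain ⟨hWpes, hWlim, _, _, hinj⟩ := zpt n C Γ hCC K z hpes I hIne hIcne θ g s T L hZp
  obtain ⟨hTcl, _⟩ := zpf n C Γ hCC (fS z I) (fS z Iᶜ) (fS_cl hP (fun i => hpes.1.cl i) _)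
    (fS_cl hP (fun i => hpes.1.cl i) _) θ g s T L hZp
  set W : Fin K → V n := zW z I T L with hW
  set r : ℕ → Fin K → ℝ := fun k i => if i ∈ I then Real.exp (θ k) else 1 with hr
  have hr0 : ∀ k i, 0 < r k i := by
    intro k i
    simp only [hr]
    split_ifs
    · exact Real.exp_pos _
    · exact one_pos
  have hF1 : ∀ k, F (fun i => r k i • z i) := fun k => hSL.scl z hz (r k) (hr0 k)
  have hF : ∀ k, F (fun i => s k • act (g k) (r k i • z i)) := fun k =>
    hSL.scl _ (hSL.inv _ (hF1 k) (g k) (hg k)) (fun _ => s k) (fun _ => hZp.pos k)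
  have hFW : F W := hSL.cld (fun k i => s k • act (g k) (r k i • z i)) W hF hWlim hWpes.1.sum_mem
  have hEs : ∀ k, Es C F p m (fun i => s k • act (g k) (r k i • z i)) =
      img (g k) (Es C F p m z) := by
    intro k
    have c3 := ((ces n C Γ Γ₀ K p J c F hSL z hz m hm).2.2.1 (r k) (hr0 k)).1
    have c4 := ((ces n C Γ Γ₀ K p J c F hSL (fun i => r k i • z i) (hF1 k) m hm).2.2.2.1
      (g k) (hg k) (s k) (hZp.pos k)).1
    rw [c3] at c4
    exact c4
  have hLim := ((ces n C Γ Γ₀ K p J c F hSL W hFW m hm).2.2.2.2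
    (fun k i => s k • act (g k) (r k i • z i)) hF hWlim).1
  have hTmem : ∀ v ∈ Es C F p m z, T v ∈ Es C F p m W := by
    intro v hv
    refine hLim.2 id (fun k => s k • act (g k) v) (T v) strictMono_id (fun k => ?_) ?_
    · change s k • act (g k) v ∈ Es C F p m (fun i => s k • act (g k) (r k i • z i))
      rw [hEs k]
      exact Submodule.smul_mem _ _ (mem_img.2 ⟨v, hv, rfl⟩)
    · exact hZp.limT (fun _ => v) v tendsto_const_nhds
  have hbox := hSL.box z hz m hm
  have hback : ∀ v ∈ Es C F p m z, T v ∈ closure C → v ∈ closure C :=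
    hinj (Es C F p m z) (by rw [hIc]; exact hbox)
  have hker : ∀ v ∈ Es C F p m z, T v = 0 → v = 0 := by
    intro v hv h0
    apply hP.salient
    · exact hback v hv (by rw [h0]; exact hP.zero_cl)
    · exact hback (-v) (Submodule.neg_mem _ hv) (by rw [map_neg, h0, neg_zero]; exact hP.zero_cl)
  have hinjT : ∀ v ∈ Es C F p m z, ∀ v' ∈ Es C F p m z, T v = T v' → v = v' := by
    intro v hv v' hv' h
    have h1 := hker (v - v') (Submodule.sub_mem _ hv hv') (by rw [map_sub, h, sub_self])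
    exact sub_eq_zero.1 h1
  have hmap : (Es C F p m z).map T = Es C F p m W := by
    apply Submodule.eq_of_le_of_finrank_eq
    · rintro _ ⟨v, hv, rfl⟩
      exact hTmem v hv
    · have h1 : Function.Injective (T.domRestrict (Es C F p m z)) := by
        intro v v' h
        exact Subtype.ext (hinjT v v.2 v' v'.2 h)
      have h2 := LinearMap.finrank_range_of_inj h1
      rw [LinearMap.range_domRestrict] at h2
      rw [h2, hSL.dim z hz m hm, hSL.dim W hFW m hm]
  have hiff : ∀ v ∈ Es C F p m z, T v ∈ closure C ↔ v ∈ closure C :=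
    fun v hv => ⟨hback v hv, hTcl v⟩
  have hmI : m ∉ I := by
    rw [← Finset.mem_compl, hIc]
    exact Finset.mem_insert_of_mem (Finset.mem_singleton_self m)
  have hWm : W m = T (z m) := by
    rw [hW]
    unfold zW
    rw [if_neg hmI]
  have hzm : z m ∈ Es C F p m z := (ces n C Γ Γ₀ K p J c F hSL z hz m hm).1.2.1
  have hUnt : ∀ h ∈ Es C F p m z, (Unt C (Es C F p m z) h ↔ Unt C (Es C F p m W) (T h)) := by
    intro h hh
    constructor
    · rintro ⟨_, h2, h3⟩
      refine ⟨hTmem h hh, hTcl h h2, ?_⟩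
      intro v' hv'
      rw [← hmap] at hv'
      obtain ⟨v, hv, rfl⟩ := hv'
      obtain ⟨M, hM, h4⟩ := h3 v hv
      refine ⟨M, hM, ?_⟩
      have h5 := hTcl _ h4
      rwa [map_sub, map_smul] at h5
    · rintro ⟨_, h2, h3⟩
      refine ⟨hh, hback h hh h2, ?_⟩
      intro v hv
      obtain ⟨M, hM, h4⟩ := h3 (T v) (hTmem v hv)
      refine ⟨M, hM, ?_⟩
      apply hback _ (Submodule.sub_mem _ (Submodule.smul_mem _ _ hh) hv)
      rw [map_sub, map_smul]
      exact h4
  have h4 : ∀ h ∈ Es C F p m z, (Tm C F p m z h ↔ Tm C F p m W (T h)) := by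
    intro h hh
    rw [hSL.bd z hz m hm h, hSL.bd W hFW m hm (T h), hWm]
    constructor
    · rintro ⟨⟨_, h2, h3, h5⟩, h6⟩
      refine ⟨⟨hTmem h hh, hTcl h h2, fun h0 => h3 (hker h hh h0),
        fun hu => h5 ((hUnt h hh).2 hu)⟩, ?_⟩
      intro a ha
      apply h6 a
      apply hinjT h hh _ (Submodule.smul_mem _ _ hzm)
      rw [map_smul]
      exact ha
    · rintro ⟨⟨_, h2, h3, h5⟩, h6⟩
      refine ⟨⟨hh, hback h hh h2, fun h0 => h3 (by rw [h0, map_zero]),
        fun hu => h5 ((hUnt h hh).1 hu)⟩, ?_⟩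
      intro a ha
      apply h6 a
      rw [ha, map_smul]
  refine ⟨hFW, hmap, hiff, h4, ?_⟩
  intro h' hh'
  have h1 : h' ∈ Es C F p m W := Submodule.subset_span (Or.inr hh')
  rw [← hmap] at h1
  obtain ⟨h, hh, rfl⟩ := h1
  exact ⟨h, (h4 h hh).2 hh', rfl⟩

end Pool.Agent.VMX.H39
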